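import Pool.Agent.Helper14.FO.Defs2

/-! MP_190084_co: module KR2. -/

set_option autoImplicit false

namespace Pool.Agent.Helper14.FO

open Finset

/-- parity character of the intersection with `S` -/
theorem kr2_insert {N : ℕ} (S T : Finset (Fin N)) (x : Fin N) (hx : x ∉ T) :
    (-1 : ℝ) ^ (S ∩ insert x T).card = (if x ∈ S then -1 else 1) * (-1 : ℝ) ^ (S ∩ T).card := by
  by_cases h : x ∈ S
  · rw [if_pos h, Finset.inter_insert_of_mem h, Finset.card_insert_of_notMem (by simp [hx]),
      pow_succ]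
    ring
  · rw [if_neg h, Finset.inter_insert_of_notMem h, one_mul]

/-- the swap of two elements acting on finite sets -/
def kr2Sw {N : ℕ} (a b : Fin N) (T : Finset (Fin N)) : Finset (Fin N) :=
  T.map (Equiv.swap a b).toEmbedding

theorem kr2_mem {N : ℕ} (a b : Fin N) (T : Finset (Fin N)) (x : Fin N) :
    x ∈ kr2Sw a b T ↔ Equiv.swap a b x ∈ T := by
  unfold kr2Sw
  rw [Finset.mem_map_equiv, Equiv.symm_swap]

theorem kr2_card {N : ℕ} (a b : Fin N) (T : Finset (Fin N)) : (kr2Sw a b T).card = T.card := by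
  unfold kr2Sw
  rw [Finset.card_map]

theorem kr2_inv {N : ℕ} (a b : Fin N) (T : Finset (Fin N)) : kr2Sw a b (kr2Sw a b T) = T := by
  ext x
  rw [kr2_mem, kr2_mem, Equiv.swap_apply_self]

theorem kr2_a {N : ℕ} (a b : Fin N) (T : Finset (Fin N)) : a ∈ kr2Sw a b T ↔ b ∈ T := by
  rw [kr2_mem, Equiv.swap_apply_left]

theorem kr2_b {N : ℕ} (a b : Fin N) (T : Finset (Fin N)) : b ∈ kr2Sw a b T ↔ a ∈ T := by
  rw [kr2_mem, Equiv.swap_apply_right]

theorem kr2_o {N : ℕ} (a b : Fin N) (T : Finset (Fin N)) (x : Fin N) (ha : x ≠ a) (hb : x ≠ b) :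
    x ∈ kr2Sw a b T ↔ x ∈ T := by
  rw [kr2_mem, Equiv.swap_apply_of_ne_of_ne ha hb]

theorem kr2_flip {N : ℕ} (S : Finset (Fin N)) (a b : Fin N) (ha : a ∈ S) (hb : b ∉ S)
    (T : Finset (Fin N)) (hT : ¬ (a ∈ T ↔ b ∈ T)) :
    (-1 : ℝ) ^ (S ∩ T).card + (-1 : ℝ) ^ (S ∩ kr2Sw a b T).card = 0 := by
  have hab : a ≠ b := fun h => hb (h ▸ ha)
  by_cases h : a ∈ T
  · have hbT : b ∉ T := fun h' => hT ⟨fun _ => h', fun _ => h⟩
    have e1 : T = insert a (T.erase a) := (Finset.insert_erase h).symm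
    have e2 : kr2Sw a b T = insert b (T.erase a) := by
      ext x
      by_cases hxa : x = a
      · subst hxa
        rw [kr2_a]
        simp [hbT, hab]
      · by_cases hxb : x = b
        · subst hxb
          rw [kr2_b]
          simp [h]
        · rw [kr2_o a b T x hxa hxb]
          simp [hxa, hxb]
    have e3 := kr2_insert S (T.erase a) a (by simp)
    have e4 := kr2_insert S (T.erase a) b (by simp [hbT])
    rw [← e1] at e3
    rw [← e2] at e4
    rw [e3, e4, if_pos ha, if_neg hb]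
    ring
  · have hbT : b ∈ T := by
      by_contra h'
      exact hT ⟨fun h1 => absurd h1 h, fun h1 => absurd h1 h'⟩
    have e1 : T = insert b (T.erase b) := (Finset.insert_erase hbT).symm
    have e2 : kr2Sw a b T = insert a (T.erase b) := by
      ext x
      by_cases hxa : x = a
      · subst hxa
        rw [kr2_a]
        simp [hbT]
      · by_cases hxb : x = b
        · subst hxb
          rw [kr2_b]
          simp [h, hab.symm]
        · rw [kr2_o a b T x hxa hxb]
          simp [hxa, hxb]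
    have e3 := kr2_insert S (T.erase b) b (by simp)
    have e4 := kr2_insert S (T.erase b) a (by simp [h])
    rw [← e1] at e3
    rw [← e2] at e4
    rw [e3, e4, if_pos ha, if_neg hb]
    ring

theorem kr2_zero {N : ℕ} (S : Finset (Fin N)) (a b : Fin N) (ha : a ∈ S) (hb : b ∉ S)
    (F : Finset (Finset (Fin N))) (hF : ∀ T ∈ F, kr2Sw a b T ∈ F)
    (hF2 : ∀ T ∈ F, ¬ (a ∈ T ↔ b ∈ T)) :
    ∑ T ∈ F, (-1 : ℝ) ^ (S ∩ T).card = 0 := by
  refine Finset.sum_involution (fun T _ => kr2Sw a b T) ?_ ?_ ?_ ?_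
  · intro T hT
    exact kr2_flip S a b ha hb T (hF2 T hT)
  · intro T hT _ he
    apply hF2 T hT
    constructor
    · intro h
      rw [← he, kr2_b]
      exact h
    · intro h
      rw [← he, kr2_a]
      exact h
  · intro T hT
    exact hF T hT
  · intro T hT
    exact kr2_inv a b T

/-- the count of the sets with a given trace on `Q` -/
theorem kr2_count {N : ℕ} (r c : ℕ) (hc : c ≤ r) (Q : Finset (Fin N))
    (F P : Finset (Finset (Fin N))) (hP : ∀ A ∈ P, A ⊆ Q ∧ A.card = c)
    (hF : ∀ T ∈ powersetCard r (univ : Finset (Fin N)), T ∩ Q ∈ P → T ∈ F) :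
    P.card * (N - Q.card).choose (r - c) ≤ (F.filter (fun T => (T ∩ Q).card = c)).card := by
  have h1 : (P ×ˢ powersetCard (r - c) (univ \ Q)).card = P.card * (N - Q.card).choose (r - c) := by
    rw [Finset.card_product, Finset.card_powersetCard, Finset.card_sdiff_of_subset (by simp)]
    simp
  have key : ∀ A ∈ P, ∀ T ⊆ univ \ Q, (A ∪ T) ∩ Q = A ∧ (A ∪ T) \ Q = T := by
    intro A hA T hT
    constructor
    · ext y
      rw [Finset.mem_inter, Finset.mem_union]
      constructor
      · rintro ⟨h | h, hQ⟩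
        · exact h
        · have := hT h
          simp [hQ] at this
      · intro h
        exact ⟨Or.inl h, (hP A hA).1 h⟩
    · ext y
      rw [Finset.mem_sdiff, Finset.mem_union]
      constructor
      · rintro ⟨h | h, hQ⟩
        · exact absurd ((hP A hA).1 h) hQ
        · exact h
      · intro h
        have h2 := hT h
        rw [Finset.mem_sdiff] at h2
        exact ⟨Or.inr h, h2.2⟩
  rw [← h1]
  refine Finset.card_le_card_of_injOn (fun p => p.1 ∪ p.2) ?_ ?_
  · rintro ⟨A, T⟩ hp
    simp only [Finset.coe_product, Set.mem_prod, Finset.mem_coe, Finset.mem_powersetCard] at hp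
    obtain ⟨hA, hT, hcT⟩ := hp
    obtain ⟨k1, k2⟩ := key A hA T hT
    have hd : Disjoint A T := by
      rw [Finset.disjoint_left]
      intro y h1 h2
      have h3 := hT h2
      rw [Finset.mem_sdiff] at h3
      exact h3.2 ((hP A hA).1 h1)
    show A ∪ T ∈ (F.filter (fun T => (T ∩ Q).card = c) : Finset (Finset (Fin N)))
    rw [Finset.mem_filter]
    refine ⟨hF _ ?_ ?_, ?_⟩
    · rw [Finset.mem_powersetCard]
      refine ⟨by simp, ?_⟩
      rw [Finset.card_union_of_disjoint hd, (hP A hA).2, hcT]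
      omega
    · rw [k1]
      exact hA
    · rw [k1]
      exact (hP A hA).2
  · rintro ⟨A, T⟩ hp ⟨A', T'⟩ hp' he
    simp only [Finset.coe_product, Set.mem_prod, Finset.mem_coe, Finset.mem_powersetCard] at hp hp'
    obtain ⟨hA, hT, hcT⟩ := hp
    obtain ⟨hA', hT', hcT'⟩ := hp'
    have he' : A ∪ T = A' ∪ T' := he
    obtain ⟨k1, k2⟩ := key A hA T hT
    obtain ⟨k1', k2'⟩ := key A' hA' T' hT'
    have e1 : A = A' := by rw [← k1, ← k1', he']
    have e2 : T = T' := by rw [← k2, ← k2', he']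
    rw [e1, e2]

theorem kr2_dbl (M j : ℕ) (h : 3 * j + 2 ≤ M) : 2 * M.choose j ≤ M.choose (j + 1) := by
  have e := Nat.choose_succ_right_eq M j
  have h1 : 2 * (j + 1) ≤ M - j := by omega
  have h2 : (2 * M.choose j) * (j + 1) ≤ M.choose (j + 1) * (j + 1) := by
    rw [e]
    calc (2 * M.choose j) * (j + 1) = M.choose j * (2 * (j + 1)) := by ring
      _ ≤ M.choose j * (M - j) := Nat.mul_le_mul_left _ h1
  exact Nat.le_of_mul_le_mul_right h2 (by omega)

/-- number of sets with a trace of size `c`, one pattern -/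
def kr2F (M k c : ℕ) : ℕ := if c ≤ k + 1 then M.choose (k + 1 - c) else 0

theorem kr2_num (M k : ℕ) (h : 3 * (k + 1) ≤ M + 4) :
    2 * (M + 3).choose k ≤ 4 * kr2F M k 1 + 4 * kr2F M k 2 + 4 * kr2F M k 3 := by
  unfold kr2F
  rcases k with _ | _ | _ | j
  · simp
  · have e : (M + 3).choose (0 + 1) = M + 3 := by simp
    rw [e]
    simp
    omega
  · have d := kr2_dbl M 1 (by omega)
    have e : (M + 3).choose (0 + 1 + 1) = M.choose 2 + 3 * M + 3 := by
      have p1 : ∀ n : ℕ, (n + 1).choose 2 = n + n.choose 2 := by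
        intro n
        have := Nat.choose_succ_succ' n 1
        simpa using this
      have q1 := p1 (M + 2)
      have q2 := p1 (M + 1)
      have q3 := p1 M
      have s1 : (M + 3).choose (0 + 1 + 1) = (M + 2 + 1).choose 2 := rfl
      have s2 : (M + 2).choose 2 = (M + 1 + 1).choose 2 := rfl
      omega
    rw [e]
    have d2 : 2 * M ≤ M.choose 2 := by simpa using d
    simp
    omega
  · have d1 := kr2_dbl M (j + 2) (by omega)
    have d2 := kr2_dbl M (j + 1) (by omega)
    have d3 := kr2_dbl M j (by omega)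
    have e : (M + 3).choose (j + 1 + 1 + 1) =
        M.choose (j + 3) + 3 * M.choose (j + 2) + 3 * M.choose (j + 1) + M.choose j := by
      have p1 : ∀ n i : ℕ, (n + 1).choose (i + 1) = n.choose i + n.choose (i + 1) :=
        fun n i => Nat.choose_succ_succ' n i
      have q1 := p1 (M + 2) (j + 2)
      have q2 := p1 (M + 1) (j + 2)
      have q3 := p1 (M + 1) (j + 1)
      have q4 := p1 M (j + 2)
      have q5 := p1 M (j + 1)
      have q6 := p1 M j
      have s1 : (M + 3).choose (j + 1 + 1 + 1) = (M + 2 + 1).choose (j + 2 + 1) := rfl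
      have s2 : (M + 2).choose (j + 2 + 1) = (M + 1 + 1).choose (j + 2 + 1) := rfl
      have s3 : (M + 2).choose (j + 2) = (M + 1 + 1).choose (j + 1 + 1) := rfl
      have s4 : (M + 1).choose (j + 2) = (M + 1).choose (j + 1 + 1) := rfl
      have s5 : M.choose (j + 2 + 1) = M.choose (j + 3) := rfl
      have s6 : M.choose (j + 1 + 1) = M.choose (j + 2) := rfl
      omega
    rw [e]
    have t1 : j + 1 + 1 + 1 + 1 - 1 = j + 3 := by omega
    have t2 : j + 1 + 1 + 1 + 1 - 2 = j + 2 := by omega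
    have t3 : j + 1 + 1 + 1 + 1 - 3 = j + 1 := by omega
    rw [if_pos (by omega), if_pos (by omega), if_pos (by omega), t1, t2, t3]
    have u1 : M.choose (j + 2 + 1) = M.choose (j + 3) := rfl
    have u2 : M.choose (j + 1 + 1) = M.choose (j + 2) := rfl
    omega

theorem st_KR2 : ST_KR2 := by
  intro N r hr1 h8 S hS2 hSN
  classical
  obtain ⟨k, rfl⟩ : ∃ k, r = k + 1 := ⟨r - 1, by omega⟩
  obtain ⟨M, rfl⟩ : ∃ M, N = M + 4 := ⟨N - 4, by omega⟩
  obtain ⟨a1, ha1, a2, ha2, ha⟩ := Finset.one_lt_card.1 (by omega : 1 < S.card)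
  have hSc : 1 < Sᶜ.card := by
    rw [Finset.card_compl, Fintype.card_fin]
    omega
  obtain ⟨b1, hb1, b2, hb2, hb⟩ := Finset.one_lt_card.1 hSc
  rw [Finset.mem_compl] at hb1 hb2
  have h11 : a1 ≠ b1 := fun h => hb1 (h ▸ ha1)
  have h12 : a1 ≠ b2 := fun h => hb2 (h ▸ ha1)
  have h21 : a2 ≠ b1 := fun h => hb1 (h ▸ ha2)
  have h22 : a2 ≠ b2 := fun h => hb2 (h ▸ ha2)
  set U := powersetCard (k + 1) (univ : Finset (Fin (M + 4))) with hU
  have hUc : U.card = (M + 4).choose (k + 1) := by
    rw [hU, Finset.card_powersetCard]; simp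
  have hUm : ∀ T, T ∈ U ↔ T.card = k + 1 := by
    intro T; rw [hU, Finset.mem_powersetCard]; simp
  set F0 := U.filter (fun T => (a1 ∈ T ↔ b1 ∈ T) ∧ (a2 ∈ T ↔ b2 ∈ T)) with hF0
  set F1 := U.filter (fun T => ¬ ((a1 ∈ T ↔ b1 ∈ T) ∧ (a2 ∈ T ↔ b2 ∈ T))) with hF1
  have hs : ∑ T ∈ U, (-1 : ℝ) ^ (S ∩ T).card = ∑ T ∈ F0, (-1 : ℝ) ^ (S ∩ T).card +
      ∑ T ∈ F1, (-1 : ℝ) ^ (S ∩ T).card := by
    rw [hF0, hF1, Finset.sum_filter_add_sum_filter_not]
  have hs1 : ∑ T ∈ F1, (-1 : ℝ) ^ (S ∩ T).card = 0 := by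
    rw [← Finset.sum_filter_add_sum_filter_not F1 (fun T => ¬ (a1 ∈ T ↔ b1 ∈ T))]
    have e1 : ∑ T ∈ F1.filter (fun T => ¬ (a1 ∈ T ↔ b1 ∈ T)), (-1 : ℝ) ^ (S ∩ T).card = 0 := by
      refine kr2_zero S a1 b1 ha1 hb1 _ ?_ ?_
      · intro T hT
        rw [Finset.mem_filter, hF1, Finset.mem_filter, hUm] at hT ⊢
        obtain ⟨⟨h1, h2⟩, h3⟩ := hT
        have h4 : ¬ (a1 ∈ kr2Sw a1 b1 T ↔ b1 ∈ kr2Sw a1 b1 T) := by
          rw [kr2_a, kr2_b]
          tauto
        exact ⟨⟨by rw [kr2_card]; exact h1, fun h => h4 h.1⟩, h4⟩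
      · intro T hT
        exact (Finset.mem_filter.1 hT).2
    have e2 : ∑ T ∈ F1.filter (fun T => ¬ ¬ (a1 ∈ T ↔ b1 ∈ T)), (-1 : ℝ) ^ (S ∩ T).card = 0 := by
      refine kr2_zero S a2 b2 ha2 hb2 _ ?_ ?_
      · intro T hT
        rw [Finset.mem_filter, hF1, Finset.mem_filter, hUm] at hT ⊢
        obtain ⟨⟨h1, h2⟩, h3⟩ := hT
        have h3' : a1 ∈ T ↔ b1 ∈ T := not_not.1 h3
        have h4 : ¬ (a2 ∈ T ↔ b2 ∈ T) := fun h => h2 ⟨h3', h⟩
        have h5 : ¬ (a2 ∈ kr2Sw a2 b2 T ↔ b2 ∈ kr2Sw a2 b2 T) := by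
          rw [kr2_a, kr2_b]
          tauto
        have h6 : a1 ∈ kr2Sw a2 b2 T ↔ b1 ∈ kr2Sw a2 b2 T := by
          rw [kr2_o a2 b2 T a1 ha h12, kr2_o a2 b2 T b1 h21.symm hb]
          exact h3'
        exact ⟨⟨by rw [kr2_card]; exact h1, fun h => h5 h.2⟩, not_not.2 h6⟩
      · intro T hT
        rw [Finset.mem_filter, hF1, Finset.mem_filter] at hT
        obtain ⟨⟨h1, h2⟩, h3⟩ := hT
        exact fun h => h2 ⟨not_not.1 h3, h⟩
    rw [e1, e2, add_zero]
  have hs0 : |∑ T ∈ F0, (-1 : ℝ) ^ (S ∩ T).card| ≤ (F0.card : ℝ) := by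
    refine (Finset.abs_sum_le_sum_abs _ _).trans ?_
    have : ∀ T ∈ F0, |(-1 : ℝ) ^ (S ∩ T).card| = 1 := by
      intro T _
      rw [abs_pow, abs_neg, abs_one, one_pow]
    rw [Finset.sum_congr rfl this]
    simp
  have hcc : F0.card + F1.card = (M + 4).choose (k + 1) := by
    rw [← hUc, hF0, hF1, Finset.card_filter_add_card_filter_not]
  have hQ : ({a1, a2, b1, b2} : Finset (Fin (M + 4))).card = 4 := by
    rw [Finset.card_insert_of_notMem (by simp [ha, h11, h12]),
      Finset.card_insert_of_notMem (by simp [h21, h22]),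
      Finset.card_insert_of_notMem (by simp [hb]), Finset.card_singleton]
  set Q : Finset (Fin (M + 4)) := {a1, a2, b1, b2} with hQd
  have hsplit : ∀ T : Finset (Fin (M + 4)), T ∈ U →
      ¬ ((a1 ∈ T ∩ Q ↔ b1 ∈ T ∩ Q) ∧ (a2 ∈ T ∩ Q ↔ b2 ∈ T ∩ Q)) → T ∈ F1 := by
    intro T hT h
    rw [hF1, Finset.mem_filter]
    refine ⟨hT, fun h' => h ?_⟩
    have m1 : a1 ∈ Q := by rw [hQd]; simp
    have m2 : a2 ∈ Q := by rw [hQd]; simp
    have m3 : b1 ∈ Q := by rw [hQd]; simp
    have m4 : b2 ∈ Q := by rw [hQd]; simp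
    rw [Finset.mem_inter, Finset.mem_inter, Finset.mem_inter, Finset.mem_inter]
    tauto
  have main : ∀ (c : ℕ) (P : Finset (Finset (Fin (M + 4)))), P.card = 4 →
      (∀ A ∈ P, A ⊆ Q ∧ A.card = c ∧ ¬ ((a1 ∈ A ↔ b1 ∈ A) ∧ (a2 ∈ A ↔ b2 ∈ A))) →
      4 * kr2F M k c ≤ (F1.filter (fun T => (T ∩ Q).card = c)).card := by
    intro c P hP4 hP
    unfold kr2F
    by_cases hc : c ≤ k + 1
    · rw [if_pos hc]
      have := kr2_count (k + 1) c hc Q F1 P (fun A hA => ⟨(hP A hA).1, (hP A hA).2.1⟩) (by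
        intro T hT hTP
        exact hsplit T hT (hP _ hTP).2.2)
      rw [hP4, hQ] at this
      simpa using this
    · rw [if_neg hc]
      simp
  have h11' := h11.symm
  have h12' := h12.symm
  have h21' := h21.symm
  have h22' := h22.symm
  have ha' := ha.symm
  have hb' := hb.symm
  have c1 := main 1 {{a1}, {a2}, {b1}, {b2}} (by
      rw [Finset.card_insert_of_notMem (by simp [ha, h11, h12]),
        Finset.card_insert_of_notMem (by simp [h21, h22]),
        Finset.card_insert_of_notMem (by simp [hb]), Finset.card_singleton]) (by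
      intro A hA
      simp only [Finset.mem_insert, Finset.mem_singleton] at hA
      rcases hA with rfl | rfl | rfl | rfl <;>
        simp [hQd, ha, ha', hb, hb', h11, h12, h21, h22, h11', h12', h21', h22'])
  have c2 := main 2 {{a1, a2}, {a1, b2}, {b1, a2}, {b1, b2}} (by
      have n1 : ({a1, a2} : Finset (Fin (M + 4))) ≠ {a1, b2} := by
        intro h
        have : a2 ∈ ({a1, b2} : Finset (Fin (M + 4))) := by rw [← h]; simp
        simp [ha', h22] at this
      have n2 : ({a1, a2} : Finset (Fin (M + 4))) ≠ {b1, a2} := by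
        intro h
        have : a1 ∈ ({b1, a2} : Finset (Fin (M + 4))) := by rw [← h]; simp
        simp [h11, ha] at this
      have n3 : ({a1, a2} : Finset (Fin (M + 4))) ≠ {b1, b2} := by
        intro h
        have : a1 ∈ ({b1, b2} : Finset (Fin (M + 4))) := by rw [← h]; simp
        simp [h11, h12] at this
      have n4 : ({a1, b2} : Finset (Fin (M + 4))) ≠ {b1, a2} := by
        intro h
        have : a1 ∈ ({b1, a2} : Finset (Fin (M + 4))) := by rw [← h]; simp
        simp [h11, ha] at this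
      have n5 : ({a1, b2} : Finset (Fin (M + 4))) ≠ {b1, b2} := by
        intro h
        have : a1 ∈ ({b1, b2} : Finset (Fin (M + 4))) := by rw [← h]; simp
        simp [h11, h12] at this
      have n6 : ({b1, a2} : Finset (Fin (M + 4))) ≠ {b1, b2} := by
        intro h
        have : a2 ∈ ({b1, b2} : Finset (Fin (M + 4))) := by rw [← h]; simp
        simp [h21, h22] at this
      rw [Finset.card_insert_of_notMem (by simp [n1, n2, n3]),
        Finset.card_insert_of_notMem (by simp [n4, n5]),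
        Finset.card_insert_of_notMem (by simp [n6]), Finset.card_singleton]) (by
      intro A hA
      simp only [Finset.mem_insert, Finset.mem_singleton] at hA
      rcases hA with rfl | rfl | rfl | rfl
      · refine ⟨?_, Finset.card_pair ha, ?_⟩
        · intro y hy
          simp only [Finset.mem_insert, Finset.mem_singleton, hQd] at hy ⊢
          tauto
        · simp [h11', ha, h21']
      · refine ⟨?_, Finset.card_pair h12, ?_⟩
        · intro y hy
          simp only [Finset.mem_insert, Finset.mem_singleton, hQd] at hy ⊢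
          tauto
        · simp [h11', hb]
      · refine ⟨?_, Finset.card_pair h21', ?_⟩
        · intro y hy
          simp only [Finset.mem_insert, Finset.mem_singleton, hQd] at hy ⊢
          tauto
        · simp [h11, ha]
      · refine ⟨?_, Finset.card_pair hb, ?_⟩
        · intro y hy
          simp only [Finset.mem_insert, Finset.mem_singleton, hQd] at hy ⊢
          tauto
        · simp [h11, h12])
  have c3 := main 3 {Q.erase a1, Q.erase a2, Q.erase b1, Q.erase b2} (by
      have m1 : a1 ∈ Q := by rw [hQd]; simp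
      have m2 : a2 ∈ Q := by rw [hQd]; simp
      have m3 : b1 ∈ Q := by rw [hQd]; simp
      have m4 : b2 ∈ Q := by rw [hQd]; simp
      have ne : ∀ x y : Fin (M + 4), x ∈ Q → x ≠ y → Q.erase x ≠ Q.erase y := by
        intro x y hx hxy h
        have : x ∈ Q.erase x := by rw [h]; exact Finset.mem_erase.2 ⟨hxy, hx⟩
        simp at this
      rw [Finset.card_insert_of_notMem (by
          simp only [Finset.mem_insert, Finset.mem_singleton]
          rintro (h | h | h)
          · exact ne _ _ m1 ha h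
          · exact ne _ _ m1 h11 h
          · exact ne _ _ m1 h12 h),
        Finset.card_insert_of_notMem (by
          simp only [Finset.mem_insert, Finset.mem_singleton]
          rintro (h | h)
          · exact ne _ _ m2 h21 h
          · exact ne _ _ m2 h22 h),
        Finset.card_insert_of_notMem (by
          simp only [Finset.mem_singleton]
          intro h
          exact ne _ _ m3 hb h), Finset.card_singleton]) (by
      have m1 : a1 ∈ Q := by rw [hQd]; simp
      have m2 : a2 ∈ Q := by rw [hQd]; simp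
      have m3 : b1 ∈ Q := by rw [hQd]; simp
      have m4 : b2 ∈ Q := by rw [hQd]; simp
      intro A hA
      simp only [Finset.mem_insert, Finset.mem_singleton] at hA
      rcases hA with rfl | rfl | rfl | rfl
      · refine ⟨Finset.erase_subset _ _, by rw [Finset.card_erase_of_mem m1, hQ], ?_⟩
        simp [m3, h11']
      · refine ⟨Finset.erase_subset _ _, by rw [Finset.card_erase_of_mem m2, hQ], ?_⟩
        simp [m1, m3, m4, h22', ha, h21']
      · refine ⟨Finset.erase_subset _ _, by rw [Finset.card_erase_of_mem m3, hQ], ?_⟩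
        simp [m1, h11]
      · refine ⟨Finset.erase_subset _ _, by rw [Finset.card_erase_of_mem m4, hQ], ?_⟩
        simp [m1, m2, m3, h22, h12, hb])
  have hdis : (F1.filter (fun T => (T ∩ Q).card = 1)).card +
      (F1.filter (fun T => (T ∩ Q).card = 2)).card +
      (F1.filter (fun T => (T ∩ Q).card = 3)).card ≤ F1.card := by
    rw [← Finset.card_union_of_disjoint, ← Finset.card_union_of_disjoint]
    · refine Finset.card_le_card ?_
      intro T hT
      simp only [Finset.mem_union, Finset.mem_filter] at hT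
      tauto
    · rw [Finset.disjoint_left]
      intro T h1 h2
      simp only [Finset.mem_union, Finset.mem_filter] at h1 h2
      omega
    · rw [Finset.disjoint_left]
      intro T h1 h2
      simp only [Finset.mem_filter] at h1 h2
      omega
  have hcc' : (F0.card : ℝ) + F1.card = ((M + 4).choose (k + 1) : ℝ) := by exact_mod_cast hcc
  have hnum := kr2_num M k (by omega)
  have hnum2 : 2 * (M + 3).choose k ≤ F1.card := by omega
  have hnum3 : (2 : ℝ) * ((M + 3).choose k : ℝ) ≤ (F1.card : ℝ) := by exact_mod_cast hnum2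
  have habs : ((M + 4).choose (k + 1) : ℝ) * ((k : ℝ) + 1) = ((M : ℝ) + 4) * ((M + 3).choose k : ℝ) := by
    have := Nat.add_one_mul_choose_eq (M + 3) k
    have h2 : (((M + 3 + 1) * (M + 3).choose k : ℕ) : ℝ) =
      (((M + 3 + 1).choose (k + 1) * (k + 1) : ℕ) : ℝ) := by exact_mod_cast this
    push_cast at h2
    have h3 : ((M + 3 + 1).choose (k + 1) : ℝ) = ((M + 4).choose (k + 1) : ℝ) := rfl
    rw [h3] at h2
    linarith
  have hM4 : (0 : ℝ) < (M : ℝ) + 4 := by positivity
  have hfin : ((M + 4).choose (k + 1) : ℝ) * (1 - 2 * (((k + 1 : ℕ) : ℝ)) / ((M + 4 : ℕ) : ℝ)) =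
      ((M + 4).choose (k + 1) : ℝ) - 2 * ((M + 3).choose k : ℝ) := by
    push_cast
    have : ((M + 4).choose (k + 1) : ℝ) * (2 * ((k : ℝ) + 1) / ((M : ℝ) + 4)) =
        2 * ((M + 3).choose k : ℝ) := by
      rw [mul_div_assoc', div_eq_iff hM4.ne']
      linarith
    rw [mul_sub, mul_one, this]
  rw [hs, hs1, add_zero, hfin]
  refine hs0.trans ?_
  linarith

end Pool.Agent.Helper14.FO
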